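import Mathlib
import Pool.Agent.Q51.MN.Main

set_option autoImplicit false

/-!
# A heavy multinet that is not induced from any `Q_n`

The pencil spanned by `(25x² - z²)(25y² - z²)((3x + 4y)² + z²)((4x - 3y)² + z²)` and
`(25x² + z²)(25y² + z²)((3x + 4y)² - z²)((4x - 3y)² - z²)` is of Ceva type, its third completely reducible
fiber is `z² (x² + y²) (2x + y) (x - 2y) (3x - y) (x + 3y)` (up to a constant), and the heavy
`(3,8)`-multinet it defines is not induced from `Q_n` for any `n ≥ 1`. All definitions are in
`Pool.Agent.Q51.MN.Defs`.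
-/

namespace Pool.Agent.Results.MP_7bc845_ag.QuaternionMultinet

open Q51.MN

theorem result :
    IsHeavyMultinet 8 pencil ∧ ∀ n : ℕ, 1 ≤ n → ¬ InducedFromQ n pencil :=
  ⟨isHeavy, fun n _ => no_induced n fB_mem red_B⟩

end Pool.Agent.Results.MP_7bc845_ag.QuaternionMultinet
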